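import Mathlib

/-!
# A polynomial without bifurcation values at infinity, but with an asymptotic
`ρ`-nonregular value for every centre

The polynomial is `f = y Q(xy)` with `Q(s) = 2 s² + 7 s + 8 > 0`. The map
`(x, y) ↦ (x / Q(xy), y Q(xy))` is a diffeomorphism of the plane whose second component is `f`, so
`f` is a globally trivial fibration. On the level curve `f = t` one has `y = t / Q(s)`,
`x = s Q(s) / t` with `s = xy`; the function `s Q(s)` has a local minimum at `s = -1` with a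
negative value, so for every centre `a` and all small `t > 0` the distance to `a` has an interior
local maximum on the level curve, at a point that tends to infinity as `t → 0`.
-/

set_option autoImplicit false

open MvPolynomial Set Topology Filter TopologicalSpace Manifold ContDiff

namespace Pool.Agent.Results.MP_025584_ag.TrivialButTangent

/-- `g` is a `C^∞` map from the open set `W ⊆ ℝ^n` to the `(n - 1)`-dimensional manifold `F`. -/
def SmoothToFibre {n : ℕ} {F : Type} [TopologicalSpace F]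
    [ChartedSpace (EuclideanSpace ℝ (Fin (n - 1))) F] (W : Opens (Fin n → ℝ)) (g : W → F) : Prop :=
  ContMDiff 𝓘(ℝ, Fin n → ℝ) (𝓡 (n - 1)) ∞ g

/-- `h` is a `C^∞` map from `V × F`, where `V ⊆ ℝ` is open and `F` is an `(n - 1)`-dimensional
manifold, to the open set `W ⊆ ℝ^n`. -/
def SmoothFromProduct {n : ℕ} {F : Type} [TopologicalSpace F]
    [ChartedSpace (EuclideanSpace ℝ (Fin (n - 1))) F] (V : Opens ℝ) (W : Opens (Fin n → ℝ))
    (h : V × F → W) : Prop :=
  ContMDiff (𝓘(ℝ, ℝ).prod (𝓡 (n - 1))) 𝓘(ℝ, Fin n → ℝ) ∞ h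

/-- The polynomial `f` maps `W` to `V`, and for some `C^∞` map `g : W → F` the map
`(f, g) : W → V × F` is bijective with a `C^∞` inverse `h`; that is, `(f, g)` is a diffeomorphism
`W → V × F` over `V`. -/
def IsProductOver {n : ℕ} (f : MvPolynomial (Fin n) ℝ) (W : Opens (Fin n → ℝ)) (V : Opens ℝ)
    (F : Type) [TopologicalSpace F] [ChartedSpace (EuclideanSpace ℝ (Fin (n - 1))) F] : Prop :=
  ∃ (hf : ∀ x : W, eval x.1 f ∈ V) (g : W → F) (h : V × F → W),
    SmoothToFibre W g ∧ SmoothFromProduct V W h ∧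
    (∀ x : W, h (⟨eval x.1 f, hf x⟩, g x) = x) ∧
    (∀ p : V × F, eval (h p).1 f = p.1 ∧ g (h p) = p.2)

/-- `IsProductOver f W V F` for some smooth manifold `F` of dimension `n - 1`. -/
def IsTrivialOver {n : ℕ} (f : MvPolynomial (Fin n) ℝ) (W : Opens (Fin n → ℝ)) (V : Opens ℝ) :
    Prop :=
  ∃ (F : Type) (_ : TopologicalSpace F) (_ : ChartedSpace (EuclideanSpace ℝ (Fin (n - 1))) F),
    IsManifold (𝓡 (n - 1)) ∞ F ∧ IsProductOver f W V F

/-- `f` restricts to a locally trivial `C^∞` fibration from the open set `U ⊆ ℝ^n` to the open set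
`D ⊆ ℝ`: `f` maps `U` to `D`, and each `t ∈ D` has an open neighbourhood `V ⊆ D` such that
`W = U ∩ f ⁻¹ V` is diffeomorphic, over `V`, to `V × F` for some smooth manifold `F` of dimension
`n - 1`. -/
def IsLocallyTrivialFibration {n : ℕ} (f : MvPolynomial (Fin n) ℝ) (U : Opens (Fin n → ℝ))
    (D : Opens ℝ) : Prop :=
  (∀ x ∈ U, eval x f ∈ D) ∧
  ∀ t ∈ D, ∃ V : Opens ℝ, t ∈ V ∧ V ≤ D ∧
    ∃ W : Opens (Fin n → ℝ), (∀ x, x ∈ W ↔ x ∈ U ∧ eval x f ∈ V) ∧ IsTrivialOver f W V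

/-- `f` is topologically trivial at infinity at `t₀`: for some compact `K ⊆ ℝ^n` and some open
interval `D` centred at `t₀` the restriction `f : f ⁻¹ D \ K → D` is a locally trivial `C^∞`
fibration. -/
def TrivialAtInfinity {n : ℕ} (f : MvPolynomial (Fin n) ℝ) (t₀ : ℝ) : Prop :=
  ∃ K : Set (Fin n → ℝ), IsCompact K ∧ ∃ ε : ℝ, 0 < ε ∧
    ∃ (U : Opens (Fin n → ℝ)) (D : Opens ℝ),
      (U : Set (Fin n → ℝ)) = (fun x => eval x f) ⁻¹' (Ioo (t₀ - ε) (t₀ + ε)) \ K ∧
      (D : Set ℝ) = Ioo (t₀ - ε) (t₀ + ε) ∧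
      IsLocallyTrivialFibration f U D

/-- The set `𝓑_∞(f)` of bifurcation values at infinity. -/
def bifInf {n : ℕ} (f : MvPolynomial (Fin n) ℝ) : Set ℝ := {t | ¬ TrivialAtInfinity f t}

/-- The gradient of `f` at `x`. -/
noncomputable def grad {n : ℕ} (f : MvPolynomial (Fin n) ℝ) (x : Fin n → ℝ) : Fin n → ℝ :=
  fun i => eval x (pderiv i f)

/-- The Milnor set `M_a(f)`: the points `x` at which `grad f x` and `x - a` are linearly
dependent. -/
def milnorSet {n : ℕ} (a : Fin n → ℝ) (f : MvPolynomial (Fin n) ℝ) : Set (Fin n → ℝ) :=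
  {x | ¬ LinearIndependent ℝ ![grad f x, x - a]}

/-- The set `S_a(f)` of asymptotic `ρ_a`-nonregular values. -/
def asympNonreg {n : ℕ} (a : Fin n → ℝ) (f : MvPolynomial (Fin n) ℝ) : Set ℝ :=
  {t | ∃ x : ℕ → Fin n → ℝ, (∀ j, x j ∈ milnorSet a f) ∧
    Tendsto (fun j => ‖x j‖) atTop atTop ∧ Tendsto (fun j => eval (x j) f) atTop (𝓝 t)}

/-- The set `𝓢_∞(f) = ⋂ a, S_a(f)`. -/
def nonregInf {n : ℕ} (f : MvPolynomial (Fin n) ℝ) : Set ℝ := ⋂ a : Fin n → ℝ, asympNonreg a f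

/-! ## The polynomial -/

/-- The polynomial `f = 2 x² y³ + 7 x y² + 8 y`. -/
noncomputable def f0 : MvPolynomial (Fin 2) ℝ :=
  C 2 * X 0 ^ 2 * X 1 ^ 3 + C 7 * X 0 * X 1 ^ 2 + C 8 * X 1

def Q (s : ℝ) : ℝ := 2 * s ^ 2 + 7 * s + 8

lemma Q_pos (s : ℝ) : 0 < Q s := by
  unfold Q; nlinarith [sq_nonneg (4 * s + 7)]

lemma eval_f0 (x : Fin 2 → ℝ) : eval x f0 = x 1 * Q (x 0 * x 1) := by
  simp only [f0, Q, map_add, map_mul, map_pow, eval_X, eval_C]; ring

lemma grad0 (x : Fin 2 → ℝ) : grad f0 x 0 = x 1 ^ 2 * (4 * (x 0 * x 1) + 7) := by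
  simp only [grad, f0, map_add, Derivation.leibniz, Derivation.leibniz_pow, pderiv_C, pderiv_X,
    smul_eq_mul, map_mul, map_pow, eval_X, eval_C, map_zero]
  simp
  ring

lemma grad1 (x : Fin 2 → ℝ) : grad f0 x 1 = 6 * (x 0 * x 1) ^ 2 + 14 * (x 0 * x 1) + 8 := by
  simp only [grad, f0, map_add, Derivation.leibniz, Derivation.leibniz_pow, pderiv_C, pderiv_X,
    smul_eq_mul, map_mul, map_pow, eval_X, eval_C, map_zero]
  simp
  ring

/-! ## Global triviality -/

lemma contDiff_Q : ContDiff ℝ ∞ Q := by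
  unfold Q; fun_prop

lemma contDiff_eval_f0 : ContDiff ℝ ∞ (fun x : Fin 2 → ℝ => eval x f0) := by
  simp_rw [eval_f0]
  exact (contDiff_apply ℝ ℝ 1).mul (contDiff_Q.comp ((contDiff_apply ℝ ℝ 0).mul (contDiff_apply ℝ ℝ 1)))

/-- The first component of the trivialisation. -/
noncomputable def g0 (x : Fin 2 → ℝ) : EuclideanSpace ℝ (Fin 1) :=
  WithLp.toLp 2 fun _ => x 0 / Q (x 0 * x 1)

lemma contDiff_g0 : ContDiff ℝ ∞ g0 := by
  rw [contDiff_euclidean]
  intro i
  exact (contDiff_apply ℝ ℝ 0).div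
    (contDiff_Q.comp ((contDiff_apply ℝ ℝ 0).mul (contDiff_apply ℝ ℝ 1))) fun x => (Q_pos _).ne'

/-- The inverse of the trivialisation. -/
noncomputable def h0 (p : ℝ × EuclideanSpace ℝ (Fin 1)) : Fin 2 → ℝ :=
  ![p.2 0 * Q (p.2 0 * p.1), p.1 / Q (p.2 0 * p.1)]

lemma contDiff_h0 : ContDiff ℝ ∞ h0 := by
  have h1 : ContDiff ℝ ∞ fun p : ℝ × EuclideanSpace ℝ (Fin 1) => p.1 := contDiff_fst
  have h2 : ContDiff ℝ ∞ fun p : ℝ × EuclideanSpace ℝ (Fin 1) => p.2 0 :=
    (contDiff_euclidean.mp contDiff_id 0).comp contDiff_snd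
  have h3 : ContDiff ℝ ∞ fun p : ℝ × EuclideanSpace ℝ (Fin 1) => Q (p.2 0 * p.1) :=
    contDiff_Q.comp (h2.mul h1)
  rw [contDiff_pi]
  intro i
  fin_cases i
  · exact h2.mul h3
  · exact h1.div h3 fun x => (Q_pos _).ne'

lemma eval_h0 (p : ℝ × EuclideanSpace ℝ (Fin 1)) : eval (h0 p) f0 = p.1 := by
  have hQ := (Q_pos (p.2 0 * p.1)).ne'
  rw [eval_f0]
  simp only [h0, Matrix.cons_val_zero, Matrix.cons_val_one]
  have : p.2 0 * Q (p.2 0 * p.1) * (p.1 / Q (p.2 0 * p.1)) = p.2 0 * p.1 := by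
    field_simp
  rw [this, div_mul_cancel₀ _ hQ]

lemma g0_h0 (p : ℝ × EuclideanSpace ℝ (Fin 1)) : g0 (h0 p) = p.2 := by
  have hQ := (Q_pos (p.2 0 * p.1)).ne'
  ext i
  fin_cases i
  simp only [g0, h0, Matrix.cons_val_zero, Matrix.cons_val_one]
  have : p.2 0 * Q (p.2 0 * p.1) * (p.1 / Q (p.2 0 * p.1)) = p.2 0 * p.1 := by
    field_simp
  rw [this]
  field_simp
  rfl

lemma h0_g0 (x : Fin 2 → ℝ) : h0 (eval x f0, g0 x) = x := by
  have hQ := (Q_pos (x 0 * x 1)).ne'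
  have e : (g0 x) 0 = x 0 / Q (x 0 * x 1) := rfl
  have : (g0 x) 0 * eval x f0 = x 0 * x 1 := by
    rw [e, eval_f0]; field_simp
  ext i
  fin_cases i
  · simp only [h0, this]
    simp only [e, Fin.zero_eta, Matrix.cons_val_zero]
    field_simp
  · simp only [h0, this]
    simp only [eval_f0, Fin.mk_one, Matrix.cons_val_one, Matrix.cons_val_zero]
    rw [mul_div_assoc, div_self hQ, mul_one]

lemma fib (U : Opens (Fin 2 → ℝ)) (D : Opens ℝ) (hU : ∀ x, x ∈ U ↔ eval x f0 ∈ D) :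
    IsLocallyTrivialFibration f0 U D := by
  refine ⟨fun x hx => (hU x).mp hx, fun t ht => ⟨D, ht, le_rfl, U, fun x => ?_,
    EuclideanSpace ℝ (Fin 1), inferInstance, inferInstance, inferInstance,
    fun x => (hU x.1).mp x.2, fun x => g0 x.1,
    fun p => ⟨h0 (p.1.1, p.2), (hU _).mpr (by rw [eval_h0]; exact p.1.2)⟩, ?_, ?_,
    fun x => Subtype.ext (h0_g0 x.1), fun p => ⟨eval_h0 _, g0_h0 _⟩⟩⟩
  · rw [← hU x, and_self]
  · exact contDiff_g0.contMDiff.comp contMDiff_subtype_val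
  · rw [SmoothFromProduct, ← ContMDiff.subtypeVal_comp_iff]
    exact contDiff_h0.contMDiff.comp
      ((contMDiff_subtype_val.comp contMDiff_fst).prodMk_space contMDiff_snd)

lemma trivial_f0 (t₀ : ℝ) : TrivialAtInfinity f0 t₀ := by
  refine ⟨∅, isCompact_empty, 1, one_pos,
    ⟨(fun x => eval x f0) ⁻¹' (Ioo (t₀ - 1) (t₀ + 1)), isOpen_Ioo.preimage contDiff_eval_f0.continuous⟩,
    ⟨Ioo (t₀ - 1) (t₀ + 1), isOpen_Ioo⟩, by simp, rfl, fib _ _ fun x => Iff.rfl⟩

/-! ## Tangency points -/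

/-- `t²` times the squared distance of `a` to the point with parameter `s` of the level curve
`f = t`. -/
noncomputable def H (a : Fin 2 → ℝ) (t s : ℝ) : ℝ :=
  (s * Q s - a 0 * t) ^ 2 + (t ^ 2 / Q s - a 1 * t) ^ 2

lemma H_deriv (a : Fin 2 → ℝ) (t s : ℝ) : HasDerivAt (H a t)
    (2 * (s * Q s - a 0 * t) * (6 * s ^ 2 + 14 * s + 8) +
      2 * (t ^ 2 / Q s - a 1 * t) * (-(t ^ 2 * (4 * s + 7)) / Q s ^ 2)) s := by
  have hQ : HasDerivAt Q (4 * s + 7) s := by
    have h1 : HasDerivAt (fun s : ℝ => 2 * s ^ 2 + 7 * s + 8) (2 * (2 * s ^ (2 - 1) * 1) + 7 * 1) s :=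
      ((((hasDerivAt_id s).pow 2).const_mul 2).add ((hasDerivAt_id s).const_mul 7)).add_const 8
    refine h1.congr_deriv ?_
    ring
  have h1 := ((((hasDerivAt_id s).mul hQ).sub_const (a 0 * t)).pow 2).add
    ((((hasDerivAt_const s (t ^ 2)).div hQ (Q_pos s).ne').sub_const (a 1 * t)).pow 2)
  refine h1.congr_deriv ?_
  simp only [Pi.mul_apply, Pi.div_apply, id, Q]
  have := (Q_pos s).ne'
  unfold Q at this
  field_simp
  ring

lemma exists_tangency (a : Fin 2 → ℝ) (t : ℝ) (ht : 0 < t) (h1 : H a t (-7 / 6) < H a t (-1))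
    (h2 : H a t (-1 / 2) < H a t (-1)) :
    ∃ x : Fin 2 → ℝ, x ∈ milnorSet a f0 ∧ eval x f0 = t ∧ 1 / (2 * t) ≤ ‖x‖ := by
  have hc : ContinuousOn (H a t) (Icc (-7 / 6) (-1 / 2)) := fun s _ =>
    (H_deriv a t s).continuousAt.continuousWithinAt
  obtain ⟨s, hs, hmax⟩ := isCompact_Icc.exists_isMaxOn (nonempty_Icc.mpr (by norm_num)) hc
  have hm := hmax (show (-1 : ℝ) ∈ Icc (-7 / 6 : ℝ) (-1 / 2) by constructor <;> norm_num)
  simp only [mem_ofPred_eq] at hm
  have hs1 : s ≠ -7 / 6 := fun h => by rw [h] at hm; linarith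
  have hs2 : s ≠ -1 / 2 := fun h => by rw [h] at hm; linarith
  have hs' : s ∈ Ioo (-7 / 6 : ℝ) (-1 / 2) :=
    ⟨lt_of_le_of_ne hs.1 (Ne.symm hs1), lt_of_le_of_ne hs.2 hs2⟩
  have hd := (hmax.isLocalMax (Icc_mem_nhds hs'.1 hs'.2)).hasDerivAt_eq_zero (H_deriv a t s)
  have hQ := Q_pos s
  have hQ' := hQ.ne'
  set x : Fin 2 → ℝ := ![s * Q s / t, t / Q s] with hx
  have x0 : x 0 = s * Q s / t := rfl
  have x1 : x 1 = t / Q s := rfl
  have hxy : x 0 * x 1 = s := by rw [x0, x1]; field_simp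
  refine ⟨x, ?_, ?_, ?_⟩
  · intro hli
    have key : grad f0 x 1 * (x 0 - a 0) = grad f0 x 0 * (x 1 - a 1) := by
      rw [grad0, grad1, hxy, x0, x1]
      have e : 2 * (s * Q s - a 0 * t) * (6 * s ^ 2 + 14 * s + 8) +
          2 * (t ^ 2 / Q s - a 1 * t) * (-(t ^ 2 * (4 * s + 7)) / Q s ^ 2) =
          2 * t * ((6 * s ^ 2 + 14 * s + 8) * (s * Q s / t - a 0) -
            (t / Q s) ^ 2 * (4 * s + 7) * (t / Q s - a 1)) := by
        field_simp
        ring
      rw [e] at hd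
      have := (mul_eq_zero.mp hd).resolve_left (by positivity)
      linarith
    have h3 := LinearIndependent.pair_iff.mp hli
    have hz := h3 (x 0 - a 0) (-grad f0 x 0) (by
      ext i
      fin_cases i
      · simp only [Fin.zero_eta, Pi.add_apply, Pi.smul_apply, Pi.sub_apply, smul_eq_mul, Pi.zero_apply]
        ring
      · simp only [Fin.mk_one, Pi.add_apply, Pi.smul_apply, Pi.sub_apply, smul_eq_mul, Pi.zero_apply]
        linarith)
    have hz' := h3 (x 1 - a 1) (-grad f0 x 1) (by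
      ext i
      fin_cases i
      · simp only [Fin.zero_eta, Pi.add_apply, Pi.smul_apply, Pi.sub_apply, smul_eq_mul, Pi.zero_apply]
        linarith
      · simp only [Fin.mk_one, Pi.add_apply, Pi.smul_apply, Pi.sub_apply, smul_eq_mul, Pi.zero_apply]
        ring)
    have hg : grad f0 x = 0 := by
      ext i
      fin_cases i
      · simpa using hz.2
      · simpa using hz'.2
    have := h3 1 0 (by rw [hg]; simp)
    exact one_ne_zero this.1
  · rw [eval_f0, hxy, x1]; field_simp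
  · have hb : 1 / (2 * t) ≤ |x 0| := by
      rw [x0, abs_div, abs_of_pos ht, abs_mul, abs_of_pos hQ, abs_of_neg (by linarith [hs'.2])]
      rw [div_le_div_iff₀ (by positivity) ht]
      have : (1 : ℝ) / 2 ≤ -s * Q s := by
        have h5 : (1 : ℝ) ≤ Q s := by unfold Q; nlinarith [sq_nonneg (4 * s + 7)]
        nlinarith [hs'.2]
      nlinarith
    exact hb.trans (norm_le_pi_norm x 0)

lemma eventually_H (a : Fin 2 → ℝ) (s : ℝ) (hs : (s * Q s) ^ 2 < 9) :
    ∀ᶠ t in 𝓝 (0 : ℝ), H a t s < H a t (-1) := by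
  have hc : ∀ s, Continuous fun t => H a t s := by
    intro s; unfold H; fun_prop
  have h0 : H a 0 s < H a 0 (-1) := by
    have e1 : H a 0 s = (s * Q s) ^ 2 := by unfold H; simp
    have e2 : H a 0 (-1) = 9 := by unfold H Q; norm_num
    rw [e1, e2]; exact hs
  exact (hc s).continuousAt.eventually_lt (hc (-1)).continuousAt h0

lemma mem_asympNonreg (a : Fin 2 → ℝ) : (0 : ℝ) ∈ asympNonreg a f0 := by
  have h1 := eventually_H a (-7 / 6) (by unfold Q; norm_num)
  have h2 := eventually_H a (-1 / 2) (by unfold Q; norm_num)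
  obtain ⟨δ, hδ, hb⟩ := Metric.eventually_nhds_iff.mp (h1.and h2)
  have ht : ∀ j : ℕ, 0 < δ / (j + 2) := fun j => by positivity
  have hlt : ∀ j : ℕ, δ / (j + 2) < δ := fun j => by
    rw [div_lt_iff₀ (by positivity)]
    nlinarith [(Nat.cast_nonneg j : (0 : ℝ) ≤ j)]
  have hex : ∀ j : ℕ, ∃ x : Fin 2 → ℝ, x ∈ milnorSet a f0 ∧ eval x f0 = δ / (j + 2) ∧
      1 / (2 * (δ / (j + 2))) ≤ ‖x‖ := by
    intro j
    have := hb (y := δ / (j + 2)) (by
      rw [Real.dist_eq, sub_zero, abs_of_pos (ht j)]; exact hlt j)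
    exact exists_tangency a _ (ht j) this.1 this.2
  choose x hx1 hx2 hx3 using hex
  refine ⟨x, hx1, ?_, ?_⟩
  · refine tendsto_atTop_mono hx3 ?_
    have e : (fun j : ℕ => 1 / (2 * (δ / ((j : ℝ) + 2)))) = fun j : ℕ => (1 / (2 * δ)) * ((j : ℝ) + 2) := by
      ext j
      have : (j : ℝ) + 2 ≠ 0 := by positivity
      field_simp
    rw [e]
    exact Tendsto.const_mul_atTop (by positivity)
      (tendsto_atTop_add_const_right _ _ tendsto_natCast_atTop_atTop)
  · simp_rw [hx2]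
    exact Tendsto.div_atTop tendsto_const_nhds
      (tendsto_atTop_add_const_right _ _ tendsto_natCast_atTop_atTop)

/-- The polynomial `f = 2 x² y³ + 7 x y² + 8 y` has no bifurcation value at infinity, while `0` is
an asymptotic `ρ_a`-nonregular value of `f` for every centre `a`; so `𝓑_∞(f) = 𝓢_∞(f)` fails. -/
theorem result :
    (∃ f : MvPolynomial (Fin 2) ℝ, bifInf f = ∅ ∧ (0 : ℝ) ∈ nonregInf f) ∧
    ¬ (∀ n : ℕ, 1 ≤ n → ∀ f : MvPolynomial (Fin n) ℝ, bifInf f = nonregInf f) := by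
  have h1 : bifInf f0 = ∅ := by
    ext t
    simp only [bifInf, mem_ofPred_eq, mem_empty_iff_false, iff_false, not_not]
    exact trivial_f0 t
  have h2 : (0 : ℝ) ∈ nonregInf f0 := mem_iInter.mpr mem_asympNonreg
  refine ⟨⟨f0, h1, h2⟩, fun H => ?_⟩
  have := H 2 (by norm_num) f0
  rw [← this, h1] at h2
  exact h2

end Pool.Agent.Results.MP_025584_ag.TrivialButTangent
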